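import Pool.Agent.Helper22.Slip.Final

/-!
# The weak slippery conjecture

For a positive word `w` and a pair `(r, s)` slippery for `w`,
`h_a(w) r + h_b(w) s = R(w, r-, s-)`.

When `R(w, r-, s-)` is rational this is `Pool.Agent.Helper76.Slip.main`; when it is irrational the
equality holds for every pair `(r, s)` (`Pool.Agent.Helper22.Slip.irrational_value`).
-/

namespace Pool.Agent.Results.MP_2e5e1a_gt.WeakSlippery

open Pool.Agent.Helper76.Slip

/-- Let `w` be the positive word with list of letters `l` (`true` for `a` and `false` for `b`), and
let `(r, s)` be slippery for `w`. Then `h_a(w) r + h_b(w) s = R(w, r-, s-)`. -/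
theorem result (l : List Bool) (r s : ℝ) (hs : Slippery (word l) r s) :
    (l.count true : ℝ) * r + (l.count false : ℝ) * s = Rminus (word l) r s :=
  Pool.Agent.Helper22.Slip.weak_slippery l r s hs

end Pool.Agent.Results.MP_2e5e1a_gt.WeakSlippery
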